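import Pool.Agent.ETCISO.Prime
import Pool.Agent.RFT.Bridge

/-!
# Isolated elements of linked alternating maps

`prime_of_isolated` for a linked alternating bilinear map over `F_2`.
-/

set_option autoImplicit false

namespace Pool.Agent.RFT

open Pool.Agent.Helper58.PLine Pool.Agent.ETCP Pool.Agent.ETCISO

variable {V B : Type} [AddCommGroup V] [Module (ZMod 2) V] [AddCommGroup B] [Module (ZMod 2) B]
  {q : V →ₗ[ZMod 2] V →ₗ[ZMod 2] B}

/-- If `x` is isolated (`q v w = 0` with `q x v ≠ 0` only when `q x w = 0` or `q x (w + v) = 0`)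
and `x` has rank at least two, there is a prime functional that kills the annihilator of `x`. -/
theorem LinkedAlt.primeFun_of_isolated [Finite V] (h : LinkedAlt q) (x : V)
    (hx : ∀ v, q x v ≠ 0 → ∀ w, q v w = 0 → q x w = 0 ∨ q x (w + v) = 0)
    (hr : ∃ a b, q x a ≠ 0 ∧ q x b ≠ 0 ∧ q x (a + b) ≠ 0) :
    ∃ φ, PrimeFun q φ ∧ ∀ y, q x y = 0 → φ y = 0 := by
  obtain ⟨φ, h0, h1, h2⟩ := prime_of_isolated (S := h.toQData) (x := x) rfl hx hr
  exact ⟨φ, ⟨h0, h2⟩, h1⟩

end Pool.Agent.RFT
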