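import Mathlib

/-!
# A rank identity for three pairwise friendship matrices

If `Aᵀ B = J`, `A 1 = d 1 = B 1` and `A Aᵀ + B Bᵀ` is positive definite then
`rank A + rank B = m + 1`.
-/

set_option autoImplicit false

namespace Pool.Agent.ETCISO

open Matrix

theorem rank_add_eq {m n p : Type} [Fintype m] [Fintype n] [Fintype p] [DecidableEq m]
    [DecidableEq n] [DecidableEq p] [Nonempty m] [Nonempty p]
    (A : Matrix m n ℝ) (B : Matrix m p ℝ) (d : ℝ) (hd : d ≠ 0)
    (hA : ∀ i, ∑ j, A i j = d) (hB : ∀ i, ∑ j, B i j = d)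
    (hAB : ∀ j k, ∑ i, A i j * B i k = 1)
    (hinj : ∀ v : m → ℝ, (∀ j, ∑ i, A i j * v i = 0) → (∀ k, ∑ i, B i k * v i = 0) → v = 0) :
    A.rank + B.rank = Fintype.card m + 1 := by
  classical
  set RA := LinearMap.range A.mulVecLin with hRA
  set RB := LinearMap.range B.mulVecLin with hRB
  have h1 : A.rank + B.rank = Module.finrank ℝ ↥(RA ⊔ RB) + Module.finrank ℝ ↥(RA ⊓ RB) :=
    (Submodule.finrank_sup_add_finrank_inf_eq RA RB).symm
  have htop : RA ⊔ RB = ⊤ := by
    by_contra hne
    obtain ⟨f, hf, hle⟩ := Submodule.exists_le_ker_of_lt_top (RA ⊔ RB) (lt_top_iff_ne_top.2 hne)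
    apply hf
    have hfe : ∀ w : m → ℝ, f w = ∑ i, w i * f (Pi.single i 1) := by
      intro w
      conv_lhs => rw [← Finset.univ_sum_single w, map_sum]
      refine Finset.sum_congr rfl fun i _ => ?_
      have : (Pi.single i (w i) : m → ℝ) = w i • (Pi.single i 1 : m → ℝ) := by
        ext j
        by_cases hj : j = i
        · subst hj; simp
        · simp [Pi.single_eq_of_ne hj]
      rw [this, map_smul, smul_eq_mul]
    have hv := hinj (fun i => f (Pi.single i 1)) ?_ ?_
    · ext i
      have := congrFun hv i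
      simpa using this
    · intro j
      have h2 : A.mulVecLin (Pi.single j 1) ∈ RA ⊔ RB :=
        Submodule.mem_sup_left (LinearMap.mem_range_self _ _)
      have h3 : f (A.mulVecLin (Pi.single j 1)) = 0 := hle h2
      rw [hfe] at h3
      rw [← h3]
      refine Finset.sum_congr rfl fun i _ => ?_
      simp [Matrix.mulVec_single]
    · intro k
      have h2 : B.mulVecLin (Pi.single k 1) ∈ RA ⊔ RB :=
        Submodule.mem_sup_right (LinearMap.mem_range_self _ _)
      have h3 : f (B.mulVecLin (Pi.single k 1)) = 0 := hle h2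
      rw [hfe] at h3
      rw [← h3]
      refine Finset.sum_congr rfl fun i _ => ?_
      simp [Matrix.mulVec_single]
  have hone : RA ⊓ RB = Submodule.span ℝ {(fun _ => 1 : m → ℝ)} := by
    apply le_antisymm
    · rintro v ⟨⟨a, ha⟩, ⟨b, hb⟩⟩
      have ha' : ∀ i, v i = ∑ j, A i j * a j := by
        intro i; rw [← ha]; rfl
      have hb' : ∀ i, v i = ∑ j, B i j * b j := by
        intro i; rw [← hb]; rfl
      have hp : (Fintype.card p : ℝ) ≠ 0 := Nat.cast_ne_zero.2 Fintype.card_ne_zero
      set l := (∑ k, b k) * d / Fintype.card p with hl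
      -- the corrected vectors
      have ha2 : ∀ i, v i - l = ∑ j, A i j * (a j - l / d) := by
        intro i
        simp only [mul_sub, Finset.sum_sub_distrib, ← Finset.sum_mul]
        rw [← ha' i, hA, mul_div_cancel₀ _ hd]
      have hb2 : ∀ i, v i - l = ∑ j, B i j * (b j - l / d) := by
        intro i
        simp only [mul_sub, Finset.sum_sub_distrib, ← Finset.sum_mul]
        rw [← hb' i, hB, mul_div_cancel₀ _ hd]
      have hs : ∑ k, (b k - l / d) = 0 := by
        rw [Finset.sum_sub_distrib, Finset.sum_const, Finset.card_univ, nsmul_eq_mul, hl]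
        field_simp
        ring
      have hat : ∀ j, ∑ i, A i j * (v i - l) = 0 := by
        intro j
        have : ∑ i, A i j * (v i - l) = ∑ k, (b k - l / d) * ∑ i, A i j * B i k := by
          simp only [hb2, Finset.mul_sum]
          rw [Finset.sum_comm]
          refine Finset.sum_congr rfl fun k _ => Finset.sum_congr rfl fun i _ => by ring
        rw [this]
        simp only [hAB, mul_one]
        exact hs
      have hz : ∑ i, (v i - l) * (v i - l) = 0 := by
        have : ∑ i, (v i - l) * (v i - l) = ∑ j, (a j - l / d) * ∑ i, A i j * (v i - l) := by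
          simp only [Finset.mul_sum]
          rw [Finset.sum_comm]
          refine Finset.sum_congr rfl fun i _ => ?_
          conv_lhs => rw [ha2 i, Finset.sum_mul]
          rw [← ha2 i]
          refine Finset.sum_congr rfl fun j _ => by ring
        rw [this]
        simp only [hat, mul_zero, Finset.sum_const_zero]
      have hv : ∀ i, v i = l := by
        intro i
        have h2 := (Finset.sum_eq_zero_iff_of_nonneg (fun i _ => mul_self_nonneg (v i - l))).1 hz i
          (Finset.mem_univ i)
        have := mul_self_eq_zero.1 h2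
        linarith
      rw [Submodule.mem_span_singleton]
      exact ⟨l, by ext i; simp [hv i]⟩
    · rw [Submodule.span_singleton_le_iff_mem]
      refine ⟨⟨fun _ => 1 / d, ?_⟩, ⟨fun _ => 1 / d, ?_⟩⟩
      · ext i
        show ∑ j, A i j * (1 / d) = 1
        rw [← Finset.sum_mul, hA, mul_one_div_cancel hd]
      · ext i
        show ∑ j, B i j * (1 / d) = 1
        rw [← Finset.sum_mul, hB, mul_one_div_cancel hd]
  rw [h1, htop, hone, finrank_top, Module.finrank_fintype_fun_eq_card, finrank_span_singleton]
  intro h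
  obtain ⟨i⟩ := (inferInstance : Nonempty m)
  have := congrFun h i
  simp at this

/-- the Gram matrix of the indicator functions of sets plus a positive multiple of the identity -/
theorem gram_inj {m n p W : Type} [Fintype m] [Fintype n] [Fintype p] [Fintype W]
    [DecidableEq m] (A : Matrix m n ℝ) (B : Matrix m p ℝ) (g : m → W → ℝ) (d : ℝ) (hd : 0 < d)
    (h : ∀ i i', ∑ j, A i j * A i' j + ∑ k, B i k * B i' k =
      ∑ w, g i w * g i' w + if i = i' then d else 0)
    (v : m → ℝ) (hA : ∀ j, ∑ i, A i j * v i = 0) (hB : ∀ k, ∑ i, B i k * v i = 0) : v = 0 := by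
  have h1 : ∑ i, ∑ i', v i * v i' * (∑ j, A i j * A i' j + ∑ k, B i k * B i' k) = 0 := by
    have e1 : ∑ i, ∑ i', v i * v i' * (∑ j, A i j * A i' j + ∑ k, B i k * B i' k) =
        ∑ j, (∑ i, A i j * v i) * (∑ i', A i' j * v i') +
        ∑ k, (∑ i, B i k * v i) * (∑ i', B i' k * v i') := by
      simp only [mul_add, Finset.sum_add_distrib, Finset.mul_sum, Finset.sum_mul]
      congr 1
      · calc ∑ i, ∑ i', ∑ j, v i * v i' * (A i j * A i' j)
            = ∑ i, ∑ j, ∑ i', v i * v i' * (A i j * A i' j) :=
              Finset.sum_congr rfl fun i _ => Finset.sum_comm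
          _ = ∑ j, ∑ i, ∑ i', v i * v i' * (A i j * A i' j) := Finset.sum_comm
          _ = ∑ j, ∑ i', ∑ i, v i * v i' * (A i j * A i' j) :=
              Finset.sum_congr rfl fun j _ => Finset.sum_comm
          _ = _ := Finset.sum_congr rfl fun j _ => Finset.sum_congr rfl fun i' _ =>
              Finset.sum_congr rfl fun i _ => by ring
      · calc ∑ i, ∑ i', ∑ j, v i * v i' * (B i j * B i' j)
            = ∑ i, ∑ j, ∑ i', v i * v i' * (B i j * B i' j) :=
              Finset.sum_congr rfl fun i _ => Finset.sum_comm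
          _ = ∑ j, ∑ i, ∑ i', v i * v i' * (B i j * B i' j) := Finset.sum_comm
          _ = ∑ j, ∑ i', ∑ i, v i * v i' * (B i j * B i' j) :=
              Finset.sum_congr rfl fun j _ => Finset.sum_comm
          _ = _ := Finset.sum_congr rfl fun j _ => Finset.sum_congr rfl fun i' _ =>
              Finset.sum_congr rfl fun i _ => by ring
    rw [e1]
    simp only [hA, hB, mul_zero, Finset.sum_const_zero, add_zero]
  have h2 : ∑ i, ∑ i', v i * v i' * (∑ j, A i j * A i' j + ∑ k, B i k * B i' k) =
      ∑ w, (∑ i, g i w * v i) * (∑ i', g i' w * v i') + ∑ i, d * (v i * v i) := by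
    simp only [h, mul_add, Finset.sum_add_distrib, Finset.mul_sum, Finset.sum_mul]
    congr 1
    · calc ∑ i, ∑ i', ∑ j, v i * v i' * (g i j * g i' j)
          = ∑ i, ∑ j, ∑ i', v i * v i' * (g i j * g i' j) :=
            Finset.sum_congr rfl fun i _ => Finset.sum_comm
        _ = ∑ j, ∑ i, ∑ i', v i * v i' * (g i j * g i' j) := Finset.sum_comm
        _ = ∑ j, ∑ i', ∑ i, v i * v i' * (g i j * g i' j) :=
            Finset.sum_congr rfl fun j _ => Finset.sum_comm
        _ = _ := Finset.sum_congr rfl fun j _ => Finset.sum_congr rfl fun i' _ =>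
            Finset.sum_congr rfl fun i _ => by ring
    · refine Finset.sum_congr rfl fun i _ => ?_
      rw [Finset.sum_eq_single i]
      · simp; ring
      · intro j _ hj; simp [hj.symm]
      · intro hi; exact absurd (Finset.mem_univ i) hi
  rw [h2] at h1
  have h3 : 0 ≤ ∑ w, (∑ i, g i w * v i) * (∑ i', g i' w * v i') :=
    Finset.sum_nonneg fun w _ => mul_self_nonneg _
  have h4 : ∑ i, d * (v i * v i) = 0 := by
    have h5 : 0 ≤ ∑ i, d * (v i * v i) :=
      Finset.sum_nonneg fun i _ => mul_nonneg hd.le (mul_self_nonneg _)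
    linarith
  ext i
  have h6 := (Finset.sum_eq_zero_iff_of_nonneg
    (fun i _ => mul_nonneg hd.le (mul_self_nonneg (v i)))).1 h4 i (Finset.mem_univ i)
  rcases mul_eq_zero.1 h6 with h7 | h7
  · exact absurd h7 hd.ne'
  · exact mul_self_eq_zero.1 h7

end Pool.Agent.ETCISO
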