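import Pool.Agent.ETCISO.Tri
import Pool.Agent.ETCISO.Lin

/-!
# The graph of a value modulo `T` (after helper99, ETC-99A, Theorem R2)
-/

set_option autoImplicit false
set_option linter.unusedSimpArgs false
set_option linter.unusedVariables false
set_option linter.unusedSectionVars false

namespace Pool.Agent.ETCISO

open Pool.Agent.Helper58.PLine (QData)
open Pool.Agent.ETCP

variable {V Q : Type} [AddCommGroup V] [Module (ZMod 2) V]
variable {S : QData V Q} {π : V →ₗ[ZMod 2] E}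

namespace Rk2

variable (X : Rk2 S π)

theorem mk_eq {x y : V} : X.T.mkQ x = X.T.mkQ y ↔ x + y ∈ X.T := by
  rw [Submodule.mkQ_apply, Submodule.mkQ_apply, Submodule.Quotient.eq, ZModModule.sub_eq_add]

/-- the colour of a class -/
def pb : (V ⧸ X.T) →ₗ[ZMod 2] E := X.T.liftQ π (fun _ h => X.T_ker h)

theorem pb_mk (x : V) : X.pb (X.T.mkQ x) = π x := rfl

/-- adjacent classes -/
def Adj (c : Q) (a b : V ⧸ X.T) : Prop := ∃ x y, X.T.mkQ x = a ∧ X.T.mkQ y = b ∧ S.q x y = c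

/-- classes of the elements which have `c` as a value -/
def Nd (c : Q) (a : V ⧸ X.T) : Prop := ∃ x y, X.T.mkQ x = a ∧ S.q x y = c

variable {X} {c : Q}

theorem adj_symm {a b : V ⧸ X.T} (h : X.Adj c a b) : X.Adj c b a := by
  obtain ⟨x, y, h1, h2, h3⟩ := h
  exact ⟨y, x, h2, h1, by rw [S.symm]; exact h3⟩

theorem adj_comm {a b : V ⧸ X.T} : X.Adj c a b ↔ X.Adj c b a := ⟨adj_symm, adj_symm⟩

theorem adj_mk {x y : V} (h : S.q x y = c) : X.Adj c (X.T.mkQ x) (X.T.mkQ y) :=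
  ⟨x, y, rfl, rfl, h⟩

theorem adj_nd {a b : V ⧸ X.T} (h : X.Adj c a b) : X.Nd c a := by
  obtain ⟨x, y, h1, h2, h3⟩ := h
  exact ⟨x, y, h1, h3⟩

section withc

variable (hc : ∃ w1 w2, S.q w1 w2 = c ∧ dl (π w1) (π w2) = 1)
include hc

theorem dc (X : Rk2 S π) {x y : V} (h : S.q x y = c) : dl (π x) (π y) = 1 := by
  obtain ⟨w1, w2, h1, h2⟩ := hc
  rw [← h2]
  exact X.dq (h.trans h1.symm)

theorem adj_dl {a b : V ⧸ X.T} (h : X.Adj c a b) : dl (X.pb a) (X.pb b) = 1 := by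
  obtain ⟨x, y, rfl, rfl, h3⟩ := h
  rw [pb_mk, pb_mk]
  exact dc hc X h3

theorem stepB' {a b : V ⧸ X.T} (h : X.Adj c a b) {x' y0 : V} (hx : X.T.mkQ x' = a)
    (hy : S.q x' y0 = c) : ∃ y', X.T.mkQ y' = b ∧ S.q x' y' = c := by
  obtain ⟨x, y, h1, h2, h3⟩ := h
  obtain ⟨y', g1, g2⟩ := X.stepB (x := x) (x' := x') (y := y) (y0 := y0)
    (dc hc X h3) (X.mk_eq.1 (h1.trans hx.symm)) (hy.trans h3.symm)
  exact ⟨y', by rw [← h2]; exact (X.mk_eq.2 g2).symm, g1.trans h3⟩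

theorem exists_common {a b : V ⧸ X.T} (ha : X.Nd c a) (hb : X.Nd c b) :
    ∃ z, X.Adj c a z ∧ X.Adj c b z := by
  obtain ⟨x, x0, rfl, hx⟩ := ha
  obtain ⟨y, y0, rfl, hy⟩ := hb
  obtain ⟨v, h1, h2⟩ := S.link _ _ _ _ (hx.trans hy.symm)
  exact ⟨X.T.mkQ v, adj_mk (h1.symm.trans hx), adj_mk (h2.symm.trans hy)⟩

theorem common_unique {a b z z' : V ⧸ X.T} (hab : X.pb a ≠ X.pb b) (h1 : X.Adj c a z)
    (h2 : X.Adj c b z) (h3 : X.Adj c a z') (h4 : X.Adj c b z') : z = z' := by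
  -- representatives
  obtain ⟨x, v, rfl, rfl, g1⟩ := h1
  obtain ⟨y, hy, g2⟩ := stepB' hc (adj_symm h2) rfl (by rw [S.symm]; exact g1)
  obtain ⟨x', v', hx', rfl, g3⟩ := h3
  obtain ⟨y', hy', g4⟩ := stepB' hc (adj_symm h4) rfl (by rw [S.symm]; exact g3)
  have g2' : S.q y v = c := by rw [S.symm]; exact g2
  have g4' : S.q y' v' = c := by rw [S.symm]; exact g4
  -- a common neighbour of `x` and `y'`
  obtain ⟨w, k1, k2⟩ := S.link _ _ _ _ (g1.trans g4'.symm)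
  have k1' : S.q x w = c := k1.symm.trans g1
  have k2' : S.q y' w = c := k2.symm.trans g4'
  have hxy : π x ≠ π y := by
    intro h
    apply hab
    rw [pb_mk, ← hy, pb_mk, h]
  have hxy' : π y' ≠ π x := by
    intro h
    apply hab
    rw [pb_mk, ← hy', pb_mk, h]
  have m1 : v + w ∈ X.T := X.stepA (x := x) (y := y) (y' := y') (v := v) (v' := w)
    (g1.trans g2'.symm) (k1'.trans k2'.symm) (g1.trans k1'.symm) (dc hc X g1) hxy
    (X.mk_eq.1 (hy.trans hy'.symm))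
  have m2 : w + v' ∈ X.T := X.stepA (x := y') (y := x) (y' := x') (v := w) (v' := v')
    (k2'.trans k1'.symm) (g4'.trans g3.symm) (k2'.trans g4'.symm) (dc hc X k2') hxy'
    (X.mk_eq.1 hx'.symm)
  exact (X.mk_eq.2 m1).trans (X.mk_eq.2 m2)

omit hc in
/-- the classes of the elements of the kernel commuting with `x` -/
def KX (X : Rk2 S π) (x : V) : Submodule (ZMod 2) (V ⧸ X.T) :=
  (S.ann x ⊓ LinearMap.ker π).map X.T.mkQ

omit hc in
theorem mem_KX {X : Rk2 S π} {x : V} {b : V ⧸ X.T} : b ∈ KX X x ↔ ∃ k, C S x k ∧ π k = 0 ∧ X.T.mkQ k = b := by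
  unfold KX
  rw [Submodule.mem_map]
  constructor
  · rintro ⟨k, ⟨h1, h2⟩, h3⟩
    exact ⟨k, h1, h2, h3⟩
  · rintro ⟨k, h1, h2, h3⟩
    exact ⟨k, ⟨h1, h2⟩, h3⟩

omit hc in
theorem KX_pb {X : Rk2 S π} {x : V} {b : V ⧸ X.T} (h : b ∈ KX X x) : X.pb b = 0 := by
  obtain ⟨k, h1, h2, rfl⟩ := mem_KX.1 h
  rw [pb_mk, h2]

theorem coset (X : Rk2 S π) {x y : V} (h : S.q x y = c) (b : V ⧸ X.T) :
    (X.Adj c (X.T.mkQ x) b ∧ X.pb b = π y) ↔ b + X.T.mkQ y ∈ KX X x := by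
  constructor
  · rintro ⟨h1, h2⟩
    obtain ⟨y', rfl, g⟩ := stepB' hc h1 rfl h
    rw [mem_KX]
    refine ⟨y' + y, q_eq_iff.1 (g.trans h.symm), ?_, map_add _ _ _⟩
    have h2' : π y' = π y := h2
    rw [map_add, h2']
    exact ZModModule.add_self _
  · intro h1
    obtain ⟨k, h2, h3, h4⟩ := mem_KX.1 h1
    have hb : b = X.T.mkQ (k + y) := by
      rw [map_add, h4]
      exact (Pool.Agent.Helper58.PLine.add_self_add _ _).symm
    rw [hb]
    refine ⟨adj_mk ?_, ?_⟩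
    · rw [← h]
      exact q_eq (h2.of_eq rfl (eo (by abel_nf; simp [ch2, ch3, ch4])))
    · rw [pb_mk, map_add, h3, zero_add]

/-- common neighbours of two classes of the same colour have one colour. -/
theorem coset2 (X : Rk2 S π) {x x' y : V} (hxx : π x = π x') (hne : X.T.mkQ x ≠ X.T.mkQ x')
    (h : S.q x y = c) (h' : S.q x' y = c) (b : V ⧸ X.T) :
    (X.Adj c (X.T.mkQ x) b ∧ X.Adj c (X.T.mkQ x') b) ↔ b + X.T.mkQ y ∈ KX X x ⊓ KX X x' := by
  constructor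
  · rintro ⟨h1, h2⟩
    have hcol : X.pb b = π y := by
      -- `x + x'` commutes with `y`
      have hz : π (x + x') = 0 := by rw [map_add, hxx]; exact ZModModule.add_self _
      have cz : C S (x + x') y := q_eq'_iff.1 (h.trans h'.symm)
      obtain ⟨hx0, hy0, hxy⟩ := dl_one.1 (dc hc X h)
      have hnT : x + x' ∉ X.T := fun hT => hne (X.mk_eq.2 hT)
      have hTi := X.Ti_of hy0 ⟨hz, y, rfl, cz⟩ hnT
      obtain ⟨y1, rfl, g1⟩ := stepB' hc h1 rfl h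
      obtain ⟨x2, hx2, g2⟩ := stepB' hc (adj_symm h2) rfl (by rw [S.symm]; exact g1)
      have hT : x' + x2 ∈ X.T := X.mk_eq.1 hx2.symm
      have hTi2 := X.Ti_add hy0 hTi hT
      have e : x + x' + (x' + x2) = x + x2 := eo (by abel_nf; simp [ch2, ch3, ch4])
      rw [e] at hTi2
      have g2' : S.q x2 y1 = c := by rw [S.symm]; exact g2
      have cz2 : C S (x + x2) y1 := q_eq'_iff.1 (g1.trans g2'.symm)
      obtain ⟨-, hy10, -⟩ := dl_one.1 (dc hc X g1)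
      by_contra hcol
      exact hTi2.2 _ hy10 hcol ⟨hTi2.1.1, y1, rfl, cz2⟩
    exact ⟨(coset hc X h b).1 ⟨h1, hcol⟩, (coset hc X h' b).1 ⟨h2, hcol⟩⟩
  · rintro ⟨h1, h2⟩
    exact ⟨((coset hc X h b).2 h1).1, ((coset hc X h' b).2 h2).1⟩

/-- every class has neighbours of both other colours -/
theorem exists_col (X : Rk2 S π) {x y0 : V} (h : S.q x y0 = c) {j : E} (hj : j ≠ 0) (hjx : j ≠ π x) :
    ∃ y, S.q x y = c ∧ π y = j := by
  obtain ⟨hx0, hy0, hxy⟩ := dl_one.1 (dc hc X h)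
  by_cases hj2 : π y0 = j
  · exact ⟨y0, h, hj2⟩
  · refine ⟨y0 + x, ?_, ?_⟩
    · rw [← h]
      exact q_eq ((C.self X.he x).of_eq rfl (eo (by abel_nf; simp [ch2, ch3, ch4])))
    · rw [map_add]
      have f : ∀ a b j : E, a ≠ 0 → b ≠ 0 → a ≠ b → j ≠ 0 → j ≠ a → b ≠ j → b + a = j := by
        decide
      exact f _ _ _ hx0 hy0 hxy hj hjx hj2

end withc

end Rk2

end Pool.Agent.ETCISO
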