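import Pool.Agent.ETCISO.Prime
import Pool.Agent.RFT.Bridge

/-!
# Mixed types

Lemma T and its corollary: if `w` has no mixed type, then `w` is isolated.
A mixed type of `w` is a triple `z, a, b` with `a, b` values of `w` and of `z`, where `a` is a value
of `w + z` and `b` is not.
-/

set_option autoImplicit false
set_option linter.unusedSimpArgs false
set_option linter.unusedVariables false
set_option linter.unusedSectionVars false

namespace Pool.Agent.ETCISO

open Pool.Agent.Helper58.PLine (QData)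
open Pool.Agent.ETCP
open Matrix

/-- Two commuting symmetric maps `A`, `B` and a vector `e` with `u = A B e`, `A u = B u` and
`e ⬝ u = 0`: then `u = 0`. -/
theorem sym_zero {I : Type} [Fintype I] (A B : (I → ℚ) →ₗ[ℚ] (I → ℚ))
    (hA : ∀ x y, A x ⬝ᵥ y = x ⬝ᵥ A y) (hB : ∀ x y, B x ⬝ᵥ y = x ⬝ᵥ B y)
    (hAB : ∀ x, A (B x) = B (A x)) (e u : I → ℚ) (hu : u = A (B e)) (hAu : A u = B u)
    (h0 : e ⬝ᵥ u = 0) : u = 0 := by
  classical
  let L : Submodule ℚ (I → ℚ) := LinearMap.range A ⊓ LinearMap.ker (A - B)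
  have memL : ∀ x, x ∈ L ↔ (∃ y, A y = x) ∧ A x = B x := by
    intro x
    simp only [L, Submodule.mem_inf, LinearMap.mem_range, LinearMap.mem_ker,
      LinearMap.sub_apply, sub_eq_zero]
  have hL : ∀ x ∈ L, A x ∈ L := by
    intro x hx
    rw [memL] at hx ⊢
    refine ⟨⟨x, rfl⟩, ?_⟩
    rw [← hAB, hx.2]
  let AL : L →ₗ[ℚ] L := A.restrict hL
  have hAL : ∀ x : L, ((AL x : L) : I → ℚ) = A x := fun x => rfl
  have hinj : Function.Injective AL := by
    rw [injective_iff_map_eq_zero]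
    rintro ⟨x, hx⟩ h
    have h1 : A x = 0 := congrArg Subtype.val h
    obtain ⟨⟨y, hy⟩, -⟩ := (memL x).1 hx
    have h2 : x ⬝ᵥ x = 0 := by
      have : A y ⬝ᵥ x = 0 := by rw [hA, h1, dotProduct_zero]
      rwa [hy] at this
    exact Subtype.ext (dotProduct_self_eq_zero.1 h2)
  have hsurj : Function.Surjective AL := LinearMap.injective_iff_surjective.1 hinj
  have huL : u ∈ L := (memL u).2 ⟨⟨B e, hu.symm⟩, hAu⟩
  obtain ⟨m, hm⟩ := hsurj ⟨u, huL⟩
  obtain ⟨n, hn⟩ := hsurj m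
  have h1 : u = A (A n) := by
    rw [← hAL n, hn, ← hAL m, hm]
  have h2 : A (n : I → ℚ) = B n := ((memL _).1 n.2).2
  have h3 : A (n : I → ℚ) ⬝ᵥ A n = 0 := by
    have e1 : e ⬝ᵥ u = u ⬝ᵥ n := by
      have e2 : e ⬝ᵥ u = e ⬝ᵥ A (B n) := by rw [h1, h2]
      rw [e2, ← hA, ← hB, ← hAB, ← hu]
    have e3 : u ⬝ᵥ n = A (n : I → ℚ) ⬝ᵥ A n := by
      have e4 : u ⬝ᵥ n = A (A (n : I → ℚ)) ⬝ᵥ n := by rw [← h1]
      rw [e4, hA]
    rw [← e3, ← e1, h0]
  have h4 : A (n : I → ℚ) = 0 := dotProduct_self_eq_zero.1 h3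
  rw [h1, h4, map_zero]

variable {V Q : Type} [AddCommGroup V] [Module (ZMod 2) V] {S : QData V Q}

/-- `a` is a value of `x` -/
def Val (S : QData V Q) (a : Q) (x : V) : Prop := ∃ y, S.q x y = a

theorem Val.common {a : Q} {x z : V} (hx : Val S a x) (hz : Val S a z) :
    ∃ y, S.q x y = a ∧ S.q z y = a := by
  obtain ⟨y, hy⟩ := hx
  obtain ⟨y', hy'⟩ := hz
  obtain ⟨t, h1, h2⟩ := S.link x y z y' (hy.trans hy'.symm)
  exact ⟨t, by rw [← h1, hy], by rw [← h2, hy']⟩

/-- equal values of `w` and `x` have equal sums -/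
theorem sum_compat {w x v1 v2 s t : V} (h1 : S.q w v1 = S.q x s) (h2 : S.q w v2 = S.q x t) :
    S.q w (v1 + v2) = S.q x (s + t) := by
  obtain ⟨p, hp1, hp2⟩ := S.link _ _ _ _ h1
  obtain ⟨r, hr1, hr2⟩ := S.link _ _ _ _ h2
  have e1 : S.q w (p + r) = S.q x (p + r) :=
    q_eq' ((q_eq'_iff.1 (by rw [← hp1, ← hp2, h1])).add (q_eq'_iff.1 (by rw [← hr1, ← hr2, h2])))
  have e2 : S.q w (v1 + v2) = S.q w (p + r) :=
    q_eq (((q_eq_iff.1 hp1).add (q_eq_iff.1 hr1)).of_eq rfl (by abel))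
  have e3 : S.q x (s + t) = S.q x (p + r) :=
    q_eq (((q_eq_iff.1 hp2).add (q_eq_iff.1 hr2)).of_eq rfl (by abel))
  rw [e2, e1, e3]

/-- `c` is the sum of `a` and `b` at some element -/
def Tr (S : QData V Q) (a b c : Q) : Prop :=
  ∃ w v y, S.q w v = a ∧ S.q w y = b ∧ S.q w (v + y) = c

theorem Tr.swap {a b c : Q} (h : Tr S a b c) : Tr S b a c := by
  obtain ⟨w, v, y, h1, h2, h3⟩ := h
  exact ⟨w, y, v, h2, h1, by rw [add_comm, h3]⟩

theorem Tr.rot {a b c : Q} (h : Tr S a b c) : Tr S a c b := by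
  obtain ⟨w, v, y, h1, h2, h3⟩ := h
  exact ⟨w, v, v + y, h1, h3, by rw [← add_assoc, ZModModule.add_self, zero_add, h2]⟩

theorem Tr.sum {a b c : Q} (h : Tr S a b c) {x s t : V} (hs : S.q x s = a) (ht : S.q x t = b) :
    S.q x (s + t) = c := by
  obtain ⟨w, v, y, h1, h2, h3⟩ := h
  rw [← h3]
  exact sum_compat (hs.trans h1.symm) (ht.trans h2.symm)

open Classical in
/-- number of common zeros of `x` and `z` -/
noncomputable def nz [Fintype V] (S : QData V Q) (x z : V) : ℕ :=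
  (Finset.univ.filter (fun u => C S x u ∧ C S z u)).card

open Classical in
/-- the matrix of the symbol `t` on `P` -/
noncomputable def TM (S : QData V Q) (P : V → Prop) (t : Q) : Matrix V V ℚ :=
  fun x y => if P x ∧ P y ∧ S.q x y = t then 1 else 0

theorem TM_symm (P : V → Prop) (t : Q) : (TM S P t).transpose = TM S P t := by
  ext x y
  unfold TM
  rw [Matrix.transpose_apply]
  congr 1
  rw [S.symm]
  exact propext ⟨fun h => ⟨h.2.1, h.1, h.2.2⟩, fun h => ⟨h.2.1, h.1, h.2.2⟩⟩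

open Classical in
theorem card_eq [Fintype V] {x z y0 : V} {a b : Q} (h1 : S.q x y0 = a) (h2 : S.q z y0 = b) :
    (Finset.univ.filter (fun y => S.q x y = a ∧ S.q z y = b)).card = nz S x z := by
  unfold nz
  refine Finset.card_bij' (fun y _ => y0 + y) (fun y _ => y0 + y) ?_ ?_ ?_ ?_
  · intro y hy
    simp only [Finset.mem_filter, Finset.mem_univ, true_and] at hy ⊢
    exact ⟨q_eq_iff.1 (h1.trans hy.1.symm), q_eq_iff.1 (h2.trans hy.2.symm)⟩
  · intro y hy
    simp only [Finset.mem_filter, Finset.mem_univ, true_and] at hy ⊢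
    constructor
    · rw [← h1]
      exact q_eq (hy.1.of_eq rfl (by rw [add_comm y0 y, add_assoc, ZModModule.add_self, add_zero]))
    · rw [← h2]
      exact q_eq (hy.2.of_eq rfl (by rw [add_comm y0 y, add_assoc, ZModModule.add_self, add_zero]))
  · intro y _
    rw [← add_assoc, ZModModule.add_self, zero_add]
  · intro y _
    rw [← add_assoc, ZModModule.add_self, zero_add]

open Classical in
/-- product of the matrices of two symbols -/
theorem TM_mul [Fintype V] {a b c : Q} (h : Tr S a b c) {P : V → Prop}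
    (hP : ∀ x, P x ↔ Val S a x ∧ Val S b x ∧ Val S c x) (x z : V) :
    (TM S P a * TM S P b) x z = if P x ∧ P z ∧ Val S c (x + z) then (nz S x z : ℚ) else 0 := by
  rw [Matrix.mul_apply]
  have e1 : ∀ y, TM S P a x y * TM S P b y z =
      if P x ∧ P z ∧ (S.q x y = a ∧ S.q z y = b) then 1 else 0 := by
    intro y
    unfold TM
    rw [ite_mul, zero_mul, one_mul, ← ite_and]
    congr 1
    rw [S.symm y z]
    refine propext ⟨fun h => ⟨h.1.1, h.2.2.1, h.1.2.2, h.2.2.2⟩, ?_⟩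
    rintro ⟨h1, h2, h3, h4⟩
    have h3' : S.q y x = a := by rw [S.symm, h3]
    have h4' : S.q y z = b := by rw [S.symm, h4]
    have hy : P y := (hP y).2 ⟨⟨x, h3'⟩, ⟨z, h4'⟩, ⟨x + z, h.sum h3' h4'⟩⟩
    exact ⟨⟨h1, hy, h3⟩, hy, h2, h4⟩
  rw [Finset.sum_congr rfl (fun y _ => e1 y)]
  by_cases hx : P x ∧ P z
  · by_cases hc : Val S c (x + z)
    · rw [if_pos ⟨hx.1, hx.2, hc⟩]
      obtain ⟨u, hu1, hu2⟩ := hc.common ((hP x).1 hx.1).2.2
      obtain ⟨u', hu3, hu4⟩ := ((hP x).1 hx.1).2.1.common ((hP z).1 hx.2).2.1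
      have h5 : C S z u := (q_eq'_iff.1 (hu1.trans hu2.symm)).of_eq
        (by rw [add_comm x z, add_assoc, ZModModule.add_self, add_zero]) rfl
      have h6 : S.q x (u + u') = a := (h.rot.swap.rot.sum hu2 hu3)
      have h7 : S.q z (u + u') = b := by
        rw [← hu4]
        exact q_eq (h5.of_eq rfl (by rw [add_assoc, ZModModule.add_self, add_zero]))
      rw [← card_eq h6 h7, Finset.card_filter, Nat.cast_sum]
      refine Finset.sum_congr rfl (fun y _ => ?_)
      by_cases h8 : S.q x y = a ∧ S.q z y = b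
      · rw [if_pos ⟨hx.1, hx.2, h8⟩, if_pos h8, Nat.cast_one]
      · rw [if_neg (fun h => h8 h.2.2), if_neg h8, Nat.cast_zero]
    · rw [if_neg (fun h => hc h.2.2)]
      refine Finset.sum_eq_zero (fun y _ => if_neg ?_)
      rintro ⟨-, -, h3, h4⟩
      refine hc ⟨y, ?_⟩
      have h3' : S.q y x = a := by rw [S.symm, h3]
      have h4' : S.q y z = b := by rw [S.symm, h4]
      rw [S.symm, h.sum h3' h4']
  · rw [if_neg (fun h => hx ⟨h.1, h.2.1⟩)]
    exact Finset.sum_eq_zero (fun y _ => if_neg (fun h => hx ⟨h.1, h.2.1⟩))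

theorem nz_symm [Fintype V] (x z : V) : nz S x z = nz S z x := by
  unfold nz
  congr 1
  ext u
  simp only [Finset.mem_filter, Finset.mem_univ, true_and, and_comm]

theorem TM_comm [Fintype V] {a b c : Q} (h : Tr S a b c) {P : V → Prop}
    (hP : ∀ x, P x ↔ Val S a x ∧ Val S b x ∧ Val S c x) :
    TM S P a * TM S P b = TM S P b * TM S P a := by
  ext x z
  rw [TM_mul h hP, TM_mul h.swap (fun x => (hP x).trans (by tauto))]

theorem TM_dot [Fintype V] (P : V → Prop) (t : Q) (x y : V → ℚ) :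
    (TM S P t).mulVecLin x ⬝ᵥ y = x ⬝ᵥ (TM S P t).mulVecLin y := by
  rw [Matrix.mulVecLin_apply, Matrix.mulVecLin_apply, Matrix.dotProduct_mulVec,
    ← Matrix.mulVec_transpose, TM_symm]

theorem not_val_zero {c : Q} (hc : c ≠ S.z) : ¬ Val S c 0 := by
  rintro ⟨y, hy⟩
  exact hc (hy.symm.trans (C.zero' y))

open Classical in
/-- **Lemma T.** Let `a + b + c = 0` be values of `w`, `c` not zero. Suppose that for all `z` with
the values `a`, `b` the element `w + z` has either all of the values `a`, `b`, `c` or none of them.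
Then it has none of them. -/
theorem lemmaT [Finite V] {a b c : Q} (h : Tr S a b c) (hc : c ≠ S.z) {w : V} (ha : Val S a w)
    (hb : Val S b w)
    (hT : ∀ z, Val S a z → Val S b z →
      (Val S a (w + z) ↔ Val S c (w + z)) ∧ (Val S b (w + z) ↔ Val S c (w + z)))
    (z : V) (hza : Val S a z) (hzb : Val S b z) : ¬ Val S c (w + z) := by
  have := Fintype.ofFinite V
  obtain ⟨P, hP⟩ : ∃ P : V → Prop, ∀ x, P x ↔ Val S a x ∧ Val S b x ∧ Val S c x :=
    ⟨_, fun _ => Iff.rfl⟩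
  have third : ∀ x, Val S a x → Val S b x → Val S c x := by
    rintro x ⟨s, hs⟩ ⟨t, ht⟩
    exact ⟨s + t, h.sum hs ht⟩
  have hPw : P w := (hP w).2 ⟨ha, hb, third w ha hb⟩
  have hPz : P z := (hP z).2 ⟨hza, hzb, third z hza hzb⟩
  let e : V → ℚ := Pi.single w 1
  let A := (TM S P a).mulVecLin
  let B := (TM S P b).mulVecLin
  let D := (TM S P c).mulVecLin
  have mm : ∀ M N : Matrix V V ℚ, ∀ x, M.mulVecLin (N.mulVecLin e) x = (M * N) x w := by
    intro M N x
    rw [Matrix.mulVecLin_apply, Matrix.mulVecLin_apply, Matrix.mulVec_mulVec,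
      Matrix.mulVec_single_one]
    rfl
  have cm : ∀ M N : Matrix V V ℚ, M * N = N * M → ∀ x,
      M.mulVecLin (N.mulVecLin x) = N.mulVecLin (M.mulVecLin x) := by
    intro M N hMN x
    rw [Matrix.mulVecLin_apply, Matrix.mulVecLin_apply, Matrix.mulVecLin_apply,
      Matrix.mulVecLin_apply, Matrix.mulVec_mulVec, Matrix.mulVec_mulVec, hMN]
  have cAB : ∀ x, A (B x) = B (A x) := cm _ _ (TM_comm h hP)
  have pAB : ∀ x, A (B e) x = if P x ∧ P w ∧ Val S c (x + w) then (nz S x w : ℚ) else 0 := by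
    intro x
    rw [mm, TM_mul h hP]
  have pBD : ∀ x, B (D e) x = if P x ∧ P w ∧ Val S a (x + w) then (nz S x w : ℚ) else 0 := by
    intro x
    rw [mm, TM_mul h.swap.rot (fun x => (hP x).trans (by tauto))]
  have pAD : ∀ x, A (D e) x = if P x ∧ P w ∧ Val S b (x + w) then (nz S x w : ℚ) else 0 := by
    intro x
    rw [mm, TM_mul h.rot (fun x => (hP x).trans (by tauto))]
  have e1 : A (B e) = B (D e) := by
    ext x
    rw [pAB, pBD]
    congr 1
    refine propext ⟨fun h => ⟨h.1, h.2.1, ?_⟩, fun h => ⟨h.1, h.2.1, ?_⟩⟩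
    · have := (hT x ((hP x).1 h.1).1 ((hP x).1 h.1).2.1).1.2
      rw [add_comm w x] at this
      exact this h.2.2
    · have := (hT x ((hP x).1 h.1).1 ((hP x).1 h.1).2.1).1.1
      rw [add_comm w x] at this
      exact this h.2.2
  have e2 : A (B e) = A (D e) := by
    ext x
    rw [pAB, pAD]
    congr 1
    refine propext ⟨fun h => ⟨h.1, h.2.1, ?_⟩, fun h => ⟨h.1, h.2.1, ?_⟩⟩
    · have := (hT x ((hP x).1 h.1).1 ((hP x).1 h.1).2.1).2.2
      rw [add_comm w x] at this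
      exact this h.2.2
    · have := (hT x ((hP x).1 h.1).1 ((hP x).1 h.1).2.1).2.1
      rw [add_comm w x] at this
      exact this h.2.2
  have e3 : A (A (B e)) = B (A (B e)) := by
    conv_lhs => rw [e1]
    conv_rhs => rw [e2]
    exact cAB _
  have e4 : e ⬝ᵥ A (B e) = 0 := by
    rw [single_one_dotProduct, pAB, if_neg]
    rintro ⟨-, -, h3⟩
    rw [ZModModule.add_self] at h3
    exact not_val_zero hc h3
  have e5 := sym_zero A B (TM_dot P a) (TM_dot P b) cAB e _ rfl e3 e4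
  intro hcz
  have e6 := congrFun e5 z
  rw [pAB, if_pos ⟨hPz, hPw, by rw [add_comm]; exact hcz⟩, Pi.zero_apply, Nat.cast_eq_zero] at e6
  unfold nz at e6
  rw [Finset.card_eq_zero, Finset.eq_empty_iff_forall_notMem] at e6
  refine e6 0 ?_
  rw [Finset.mem_filter]
  exact ⟨Finset.mem_univ _, C.zero _, C.zero _⟩

/-- `w` has no mixed type: for `a`, `b` values of `w` and `z`, `a` not zero, if `a` is a value of
`w + z`, then `b` is too. -/
def NoMixed (S : QData V Q) (w : V) : Prop :=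
  ∀ z a b, a ≠ S.z → Val S a w → Val S a z → Val S a (w + z) → Val S b w → Val S b z →
    Val S b (w + z)

/-- **An element without mixed types is isolated.** -/
theorem iso_of_noMixed [Finite V] (he : S.e = 0) {w : V} (hw : NoMixed S w) : Iso S w := by
  intro v hv y hy
  by_contra hcon
  rw [not_or] at hcon
  obtain ⟨hwy, hwyv⟩ := hcon
  rw [add_comm y v] at hwyv
  have hvw : Val S (S.q w v) v := ⟨w, S.symm _ _⟩
  have hTr : Tr S (S.q w v) (S.q w y) (S.q w (v + y)) := ⟨w, v, y, rfl, rfl, rfl⟩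
  have vwv : Val S (S.q w v) (w + v) := ⟨v, q_eq' ((C.self he v).of_eq (by
    rw [add_comm w v, add_assoc, ZModModule.add_self, add_zero]) rfl)⟩
  have ywv : Val S (S.q w y) (w + v) := ⟨y, q_eq' (hy.of_eq (by
    rw [add_comm w v, add_assoc, ZModModule.add_self, add_zero]) rfl)⟩
  have vywv : Val S (S.q w (v + y)) (w + v) := ⟨v + y, q_eq' (((C.self he v).add hy).of_eq (by
    rw [add_comm w v, add_assoc, ZModModule.add_self, add_zero]) rfl)⟩
  have hww : w + (w + v) = v := by rw [← add_assoc, ZModModule.add_self, zero_add]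
  have yv : Val S (S.q w y) v := by
    have := hw (w + v) (S.q w v) (S.q w y) hv ⟨v, rfl⟩ vwv (by rw [hww]; exact hvw) ⟨y, rfl⟩ ywv
    rwa [hww] at this
  refine lemmaT hTr hwyv ⟨v, rfl⟩ ⟨y, rfl⟩ ?_ v hvw yv vywv
  rintro z ⟨s, hs⟩ ⟨t, ht⟩
  have hzc : Val S (S.q w (v + y)) z := ⟨s + t, hTr.sum hs ht⟩
  refine ⟨⟨fun h => ?_, fun h => ?_⟩, ⟨fun h => ?_, fun h => ?_⟩⟩
  · exact hw z _ _ hv ⟨v, rfl⟩ ⟨s, hs⟩ h ⟨_, rfl⟩ hzc
  · exact hw z _ _ hwyv ⟨_, rfl⟩ hzc h ⟨v, rfl⟩ ⟨s, hs⟩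
  · exact hw z _ _ hwy ⟨y, rfl⟩ ⟨t, ht⟩ h ⟨_, rfl⟩ hzc
  · exact hw z _ _ hwyv ⟨_, rfl⟩ hzc h ⟨y, rfl⟩ ⟨t, ht⟩

/-- An element of rank at least two without mixed types gives a prime functional. -/
theorem prime_of_noMixed [Finite V] (he : S.e = 0) {w : V} (hw : NoMixed S w)
    (hr : ∃ a b, ¬ C S w a ∧ ¬ C S w b ∧ ¬ C S w (a + b)) :
    ∃ φ : V →ₗ[ZMod 2] ZMod 2, φ ≠ 0 ∧ (∀ y, C S w y → φ y = 0) ∧
      ∀ x y, (∃ v, S.q x v = S.z ∧ φ v = 1) → (∃ v, S.q y v = S.z ∧ φ v = 1) →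
        (∃ v, S.q (x + y) v = S.z ∧ φ v = 1) → ∃ v, S.q x v = S.z ∧ S.q y v = S.z ∧ φ v = 1 :=
  prime_of_isolated he (iso_of_noMixed he hw) hr

end Pool.Agent.ETCISO

namespace Pool.Agent.RFT

open Pool.Agent.Helper58.PLine Pool.Agent.ETCP Pool.Agent.ETCISO

variable {V B : Type} [AddCommGroup V] [Module (ZMod 2) V] [AddCommGroup B] [Module (ZMod 2) B]
  {q : V →ₗ[ZMod 2] V →ₗ[ZMod 2] B}

/-- Let `w` be an element of rank at least two of a finite linked alternating map, such that, for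
all `z` and all common values `a ≠ 0` and `b` of `w` and `z`, if `a` is a value of `w + z` then `b`
is a value of `w + z`. Then there is a prime functional that kills the annihilator of `w`. -/
theorem LinkedAlt.primeFun_of_noMixed [Finite V] (h : LinkedAlt q) (w : V)
    (hw : ∀ z a b, a ≠ 0 → (∃ y, q w y = a) → (∃ y, q z y = a) → (∃ y, q (w + z) y = a) →
      (∃ y, q w y = b) → (∃ y, q z y = b) → ∃ y, q (w + z) y = b)
    (hr : ∃ a b, q w a ≠ 0 ∧ q w b ≠ 0 ∧ q w (a + b) ≠ 0) :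
    ∃ φ, PrimeFun q φ ∧ ∀ y, q w y = 0 → φ y = 0 := by
  obtain ⟨φ, h0, h1, h2⟩ := prime_of_noMixed (S := h.toQData) (w := w) rfl hw hr
  exact ⟨φ, ⟨h0, h2⟩, h1⟩

end Pool.Agent.RFT
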