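import Pool.Agent.ETCISO.R2

/-!
# Theorem R2 of ETC-99A (helper99): ranks and parity
-/

set_option autoImplicit false
set_option linter.unusedSimpArgs false
set_option linter.unusedVariables false
set_option linter.unusedSectionVars false

namespace Pool.Agent.ETCISO

open Pool.Agent.Helper58.PLine (QData)
open Pool.Agent.ETCP
open Finset

variable {V Q : Type} [AddCommGroup V] [Module (ZMod 2) V]
variable {S : QData V Q} {π : V →ₗ[ZMod 2] E}

namespace Rk2

section fin

variable {X : Rk2 S π} {c : Q} [Fintype (V ⧸ X.T)]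

open Classical in
/-- the adjacency matrix between the classes of colours `i` and `j` -/
noncomputable def mat (X : Rk2 S π) [Fintype (V ⧸ X.T)] (c : Q) (i j : E) :
    Matrix (NN X c i) (NN X c j) ℝ := fun a b => if X.Adj c a.1 b.1 then 1 else 0

theorem mat_transpose (i j : E) : (mat X c i j).transpose = mat X c j i := by
  ext a b
  unfold mat
  simp only [Matrix.transpose_apply]
  rw [adj_comm]

theorem sum_mat (i j : E) (a : NN X c i) : ∑ b, mat X c i j a b = deg X c a.1 j := by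
  classical
  unfold mat
  rw [Finset.sum_coe_sort (NN X c j) (fun b => if X.Adj c a.1 b then (1 : ℝ) else 0),
    Finset.sum_boole]
  unfold deg
  congr 2
  ext b
  rw [mem_filter, mem_filter, mem_NN]
  constructor
  · rintro ⟨⟨h1, h2⟩, h3⟩
    exact ⟨mem_univ _, h3, h2⟩
  · rintro ⟨-, h1, h2⟩
    exact ⟨⟨adj_nd (adj_symm h1), h2⟩, h1⟩

open Classical in
theorem sum_mat_mul (i j : E) (a a' : NN X c i) : ∑ b, mat X c i j a b * mat X c i j a' b =
    ((univ.filter (fun b : V ⧸ X.T => (X.Adj c a.1 b ∧ X.Adj c a'.1 b) ∧ X.pb b = j)).card : ℝ) := by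
  unfold mat
  have : ∀ b : NN X c j, (if X.Adj c a.1 b.1 then (1 : ℝ) else 0) *
      (if X.Adj c a'.1 b.1 then (1 : ℝ) else 0) =
      if (X.Adj c a.1 b.1 ∧ X.Adj c a'.1 b.1) then (1 : ℝ) else 0 := by
    intro b
    by_cases h1 : X.Adj c a.1 b.1 <;> by_cases h2 : X.Adj c a'.1 b.1 <;> simp [h1, h2]
  simp only [this]
  rw [Finset.sum_coe_sort (NN X c j)
    (fun b => if (X.Adj c a.1 b ∧ X.Adj c a'.1 b) then (1 : ℝ) else 0), Finset.sum_boole]
  congr 2
  ext b
  rw [mem_filter, mem_filter, mem_NN]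
  constructor
  · rintro ⟨⟨h1, h2⟩, h3⟩
    exact ⟨mem_univ _, h3, h2⟩
  · rintro ⟨-, h1, h2⟩
    exact ⟨⟨adj_nd (adj_symm h1.1), h2⟩, h1⟩

variable (hc : ∃ w1 w2, S.q w1 w2 = c ∧ dl (π w1) (π w2) = 1)
include hc

theorem rank_rel {i j : E} (hi : i ≠ 0) (hj : j ≠ 0) (hij : i ≠ j) {x y : V} (hxy : S.q x y = c)
    (hx : π x = i) (hy : π y = j) :
    (mat X c i j).rank + (mat X c i (i + j)).rank = (NN X c i).card + 1 := by
  classical
  have t := third_ne hi hj hij
  -- degrees
  have hdeg : ∀ (a : NN X c i) (k : E), k ≠ 0 → k ≠ i → deg X c a.1 k = Nat.card (KX X x) := by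
    intro a k hk hki
    obtain ⟨h1, h2⟩ := mem_NN.1 a.2
    have h3 : X.Nd c (X.T.mkQ x) := ⟨x, y, rfl, hxy⟩
    rw [← deg_eq hc hxy hk (by rw [hx]; exact hki)]
    exact deg_const hc h1 h3 (by rw [h2, pb_mk, hx]) hk (by rw [h2]; exact hki) hk
      (by rw [h2]; exact hki)
  have hd : (0 : ℝ) < Nat.card (KX X x) := Nat.cast_pos.2 Nat.card_pos
  have hxN : X.T.mkQ x ∈ NN X c i := mem_NN.2 ⟨⟨x, y, rfl, hxy⟩, by rw [pb_mk, hx]⟩
  have : Nonempty (NN X c i) := ⟨⟨_, hxN⟩⟩
  have hzc : S.q x (y + x) = c := by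
    rw [← hxy]
    exact q_eq ((C.self X.he x).of_eq rfl (eo (by abel_nf; simp [ch2, ch3, ch4])))
  have hzN : X.T.mkQ (y + x) ∈ NN X c (i + j) := mem_NN.2 ⟨⟨y + x, x, rfl, by
    rw [S.symm]; exact hzc⟩, by rw [pb_mk, map_add, hx, hy, add_comm]⟩
  have : Nonempty (NN X c (i + j)) := ⟨⟨_, hzN⟩⟩
  have hcard : Fintype.card (NN X c i) = (NN X c i).card := Fintype.card_coe _
  rw [← hcard]
  -- representatives
  have hrep : ∀ a : NN X c i, ∃ r r', X.T.mkQ r = a.1 ∧ S.q r r' = c ∧ π r = i := by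
    intro a
    obtain ⟨⟨r, r', h1, h2⟩, h3⟩ := mem_NN.1 a.2
    exact ⟨r, r', h1, h2, by rw [← h3, ← h1, pb_mk]⟩
  choose rep rep' hr1 hr2 hr3 using hrep
  apply rank_add_eq _ _ (Nat.card (KX X x) : ℝ) hd.ne'
  · intro a
    rw [sum_mat, hdeg a j hj hij.symm]
  · intro a
    rw [sum_mat, hdeg a (i + j) t.1 t.2.1]
  · -- unique common neighbour
    intro b z
    obtain ⟨hb1, hb2⟩ := mem_NN.1 b.2
    obtain ⟨hz1, hz2⟩ := mem_NN.1 z.2
    obtain ⟨a, ha1, ha2⟩ := exists_common hc hb1 hz1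
    have hbz : X.pb b.1 ≠ X.pb z.1 := by rw [hb2, hz2]; exact t.2.2.1.symm
    have hai : X.pb a = i := by
      obtain ⟨-, ha0, hba⟩ := dl_one.1 (adj_dl hc ha1)
      obtain ⟨-, -, hza⟩ := dl_one.1 (adj_dl hc ha2)
      rw [hb2] at hba
      rw [hz2] at hza
      rcases col3 hi hj hij (X.pb a) with h | h | h | h
      · exact absurd h ha0
      · exact h
      · exact absurd h.symm hba
      · exact absurd h.symm hza
    have haN : a ∈ NN X c i := mem_NN.2 ⟨adj_nd (adj_symm ha1), hai⟩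
    rw [Finset.sum_eq_single (⟨a, haN⟩ : NN X c i)]
    · unfold mat
      rw [if_pos (adj_symm ha1), if_pos (adj_symm ha2), mul_one]
    · intro a' _ hne
      unfold mat
      by_cases h1 : X.Adj c a'.1 b.1
      · by_cases h2 : X.Adj c a'.1 z.1
        · exfalso
          apply hne
          apply Subtype.ext
          exact common_unique hc hbz (adj_symm h1) (adj_symm h2) ha1 ha2
        · rw [if_neg h2, mul_zero]
      · rw [if_neg h1, zero_mul]
    · intro h
      exact absurd (mem_univ _) h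
  · -- positivity
    intro v hA hB
    apply gram_inj (mat X c i j) (mat X c i (i + j))
      (fun (a : NN X c i) (w : V ⧸ X.T) => if w ∈ KX X (rep a) then (1 : ℝ) else 0)
      (Nat.card (KX X x) : ℝ) hd ?_ v hA hB
    intro a a'
    rw [sum_mat_mul, sum_mat_mul]
    have hgg : ∑ w : V ⧸ X.T, (if w ∈ KX X (rep a) then (1 : ℝ) else 0) *
        (if w ∈ KX X (rep a') then (1 : ℝ) else 0) =
        (Nat.card ↥(KX X (rep a) ⊓ KX X (rep a')) : ℝ) := by
      have : ∀ w : V ⧸ X.T, (if w ∈ KX X (rep a) then (1 : ℝ) else 0) *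
          (if w ∈ KX X (rep a') then (1 : ℝ) else 0) =
          if w ∈ KX X (rep a) ⊓ KX X (rep a') then (1 : ℝ) else 0 := by
        intro w
        rw [Submodule.mem_inf]
        by_cases h1 : w ∈ KX X (rep a) <;> by_cases h2 : w ∈ KX X (rep a') <;> simp [h1, h2]
      simp only [this]
      rw [Finset.sum_boole, Nat.card_eq_fintype_card, Fintype.card_subtype]
    rw [hgg, ← Nat.cast_add]
    by_cases haa : a = a'
    · subst haa
      rw [if_pos rfl, inf_idem]
      have e1 : (univ.filter (fun b : V ⧸ X.T => (X.Adj c a.1 b ∧ X.Adj c a.1 b) ∧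
          X.pb b = j)).card = deg X c a.1 j := by
        unfold deg
        congr 1
        ext b
        simp only [mem_filter, and_self]
      have e2 : (univ.filter (fun b : V ⧸ X.T => (X.Adj c a.1 b ∧ X.Adj c a.1 b) ∧
          X.pb b = i + j)).card = deg X c a.1 (i + j) := by
        unfold deg
        congr 1
        ext b
        simp only [mem_filter, and_self]
      have e3 : deg X c a.1 j = Nat.card (KX X (rep a)) := by
        rw [← hr1 a]
        exact deg_eq hc (hr2 a) hj (by rw [hr3]; exact hij.symm)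
      rw [e1, e2, hdeg a (i + j) t.1 t.2.1, e3, Nat.cast_add]
    · rw [if_neg haa, add_zero]
      congr 1
      have hne : X.T.mkQ (rep a) ≠ X.T.mkQ (rep a') := by
        rw [hr1, hr1]
        exact fun h => haa (Subtype.ext h)
      obtain ⟨w, hw1, hw2⟩ := S.link _ _ _ _ ((hr2 a).trans (hr2 a').symm)
      have hw1' : S.q (rep a) w = c := hw1.symm.trans (hr2 a)
      have hw2' : S.q (rep a') w = c := hw2.symm.trans (hr2 a')
      rw [← card_coset (fun b => X.Adj c a.1 b ∧ X.Adj c a'.1 b)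
        (KX X (rep a) ⊓ KX X (rep a')) (X.T.mkQ w) (by
          intro b
          rw [← coset2 hc X ((hr3 a).trans (hr3 a').symm) hne hw1' hw2' b, hr1, hr1])]
      rw [← Finset.card_union_of_disjoint]
      · congr 1
        ext b
        rw [mem_union, mem_filter, mem_filter, mem_filter]
        constructor
        · rintro (⟨h1, h2, h3⟩ | ⟨h1, h2, h3⟩)
          · exact ⟨h1, h2⟩
          · exact ⟨h1, h2⟩
        · rintro ⟨h1, h2⟩
          obtain ⟨-, hb0, hab⟩ := dl_one.1 (adj_dl hc h2.1)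
          rw [(mem_NN.1 a.2).2] at hab
          rcases col3 hi hj hij (X.pb b) with h | h | h | h
          · exact absurd h hb0
          · exact absurd h.symm hab
          · exact Or.inl ⟨h1, h2, h⟩
          · exact Or.inr ⟨h1, h2, h⟩
      · rw [Finset.disjoint_left]
        intro b hb hb'
        have h1 := (mem_filter.1 hb).2.2
        have h2 := (mem_filter.1 hb').2.2
        rw [h1] at h2
        exact t.2.2.1 h2.symm

omit hc in
theorem even_card_of_ne {x : V} {b : V ⧸ X.T} (hb : b ∈ KX X x) (hb0 : b ≠ 0) :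
    2 ∣ Nat.card (KX X x) := by
  have hM : Module.finrank (ZMod 2) (KX X x) ≠ 0 := by
    intro h
    rw [Submodule.finrank_eq_zero] at h
    rw [h, Submodule.mem_bot] at hb
    exact hb0 hb
  have : Fintype (KX X x) := Fintype.ofFinite _
  rw [Nat.card_eq_fintype_card, Module.card_eq_pow_finrank (K := ZMod 2) (V := KX X x), ZMod.card]
  exact dvd_pow_self 2 hM

/-- all sizes are even as soon as the degrees are -/
theorem even_NN {i : E} (hi : i ≠ 0) {b : V ⧸ X.T} (hb : X.Nd c b) (hib : i ≠ X.pb b)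
    (hev : ∀ a : V ⧸ X.T, X.Nd c a → X.pb a = i → ∀ k : E, k ≠ 0 → k ≠ i → 2 ∣ deg X c a k) :
    2 ∣ (NN X c (X.pb b + i)).card := by
  classical
  have hb0 := nd_col hc hb
  have t := third_ne hb0 hi hib.symm
  rw [card_NN hc hb hi hib]
  apply Finset.dvd_sum
  intro a ha
  have ha' := (mem_filter.1 ha).2
  exact hev a (adj_nd (adj_symm ha'.1)) ha'.2 _ t.1 t.2.2.1

end fin

/-- **Theorem R2** (helper99). At most one colour. -/
theorem R2 [Finite V] (X : Rk2 S π) {i j : E} (hi : i ≠ 0) (hj : j ≠ 0) (hij : i ≠ j) {z1 z2 : V}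
    (h1 : Ti S π i z1) (h2 : Ti S π j z2) : False := by
  classical
  have hfin : Finite (V ⧸ X.T) := Finite.of_surjective X.T.mkQ (Submodule.mkQ_surjective _)
  have := Fintype.ofFinite (V ⧸ X.T)
  obtain ⟨⟨p1, w1, c1, k1⟩, -⟩ := id h1
  obtain ⟨⟨p2, w2, c2, k2⟩, -⟩ := id h2
  set c := S.q w1 w2 with hcdef
  have hc : ∃ w1 w2, S.q w1 w2 = c ∧ dl (π w1) (π w2) = 1 :=
    ⟨w1, w2, rfl, by rw [c1, c2]; exact dl_one.2 ⟨hi, hj, hij⟩⟩
  have t := third_ne hi hj hij
  have hq12 : S.q w1 w2 = c := rfl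
  have hq21 : S.q w2 w1 = c := by rw [S.symm]
  -- the degrees are even
  have ev : ∀ (i : E) (w w' z : V), i ≠ 0 → π w = i → S.q w w' = c → C S z w → Ti S π i z →
      ∀ a : V ⧸ X.T, X.Nd c a → X.pb a = i → ∀ k : E, k ≠ 0 → k ≠ i → 2 ∣ deg X c a k := by
    intro i w w' z hi hw hww hz hTi a ha hai k hk hki
    have h3 : X.Nd c (X.T.mkQ w) := ⟨w, w', rfl, hww⟩
    rw [deg_const hc ha h3 (by rw [hai, pb_mk, hw]) hk (by rw [hai]; exact hki) hk
      (by rw [hai]; exact hki), deg_eq hc hww hk (by rw [hw]; exact hki)]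
    apply even_card_of_ne (b := X.T.mkQ z)
    · rw [mem_KX]
      exact ⟨z, hz.symm, hTi.1.1, rfl⟩
    · intro h0
      have : z ∈ X.T := by
        rw [Submodule.mkQ_apply, Submodule.Quotient.mk_eq_zero] at h0
        exact h0
      exact X.Ti_not hi hTi this
  have ev1 := ev i w1 w2 z1 hi c1 hq12 k1 h1
  have ev2 := ev j w2 w1 z2 hj c2 hq21 k2 h2
  -- a vertex of the third colour
  set w3 := w1 + w2 with hw3
  have c3 : π w3 = i + j := by rw [hw3, map_add, c1, c2]
  have q13 : S.q w1 w3 = c := by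
    rw [← hq12]
    exact q_eq ((C.self X.he w1).of_eq rfl (eo (by rw [hw3]; abel_nf; simp [ch2, ch3, ch4])))
  have q31 : S.q w3 w1 = c := by rw [S.symm]; exact q13
  have q23 : S.q w2 w3 = c := by
    rw [← hq21]
    exact q_eq ((C.self X.he w2).of_eq rfl (eo (by rw [hw3]; abel_nf; simp [ch2, ch3, ch4])))
  have n1 : X.Nd c (X.T.mkQ w1) := ⟨w1, w2, rfl, hq12⟩
  have n2 : X.Nd c (X.T.mkQ w2) := ⟨w2, w1, rfl, hq21⟩
  have n3 : X.Nd c (X.T.mkQ w3) := ⟨w3, w1, rfl, q31⟩
  -- sizes
  have e3 : 2 ∣ (NN X c (i + j)).card := by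
    have := even_NN hc hi n2 (by rw [pb_mk, c2]; exact hij) ev1
    rwa [pb_mk, c2, add_comm j i] at this
  have e2 : 2 ∣ (NN X c j).card := by
    have := even_NN hc hi n3 (by rw [pb_mk, c3]; exact t.2.1.symm) ev1
    rw [pb_mk, c3] at this
    have e : i + j + i = j := by rw [add_comm (i + j) i]; exact t.2.2.2.2
    rwa [e] at this
  have e1 : 2 ∣ (NN X c i).card := by
    have := even_NN hc hj n3 (by rw [pb_mk, c3]; exact t.2.2.1.symm) ev2
    rw [pb_mk, c3] at this
    have e : i + j + j = i := by rw [add_comm (i + j) j]; exact t.2.2.2.1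
    rwa [e] at this
  -- ranks
  have r1 := rank_rel hc hi hj hij hq12 c1 c2
  have r2 := rank_rel hc hj hi hij.symm hq21 c2 c1
  have r3 := rank_rel hc t.1 hi t.2.1 q31 c3 c1
  have s1 : (mat X c j i).rank = (mat X c i j).rank := by
    rw [← mat_transpose, Matrix.rank_transpose]
  have s2 : (mat X c (i + j) i).rank = (mat X c i (i + j)).rank := by
    rw [← mat_transpose, Matrix.rank_transpose]
  have s3 : (mat X c (i + j) (i + j + i)).rank = (mat X c j (j + i)).rank := by
    have e : i + j + i = j := by rw [add_comm (i + j) i]; exact t.2.2.2.2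
    rw [e, add_comm j i, ← mat_transpose, Matrix.rank_transpose]
  rw [s1] at r2
  rw [s2, s3] at r3
  omega

end Rk2

end Pool.Agent.ETCISO
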